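import Mathlib

namespace Pool.Agent.Results.MP_765488_mp.FiniteEquilibria

open scoped BigOperators
open Filter

/-!
Proof outline. At an equilibrium `x` put `r_i = |x - a_i|` and `s_i = q_i r_i ^ (-d) > 0`, so that
`(∑ s_i) x = ∑ s_i a_i`. If there were infinitely many equilibria, an injective sequence of them
would give a point `X` with coordinates in the ultrapower `K` of `ℝ`, with `R_i`, `s_i` in `K`.
For a valuation `v` of `K` that is at most one on `ℝ`:

* `v (∑ s_i) ≤ 1` (`S_le`);
* if `∑ s_i` is a nonzero real number then all coordinates of `X` have value at most one (`X_le`).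

An element of `K` with value at most one for all such valuations is integral over `ℝ`, hence real.
So `∑ s_i` is real, then `X` is real, which contradicts injectivity of the sequence.
-/

/-- The potential of the point charges `q i` at the points `a i` of `ℝ ^ d`: the sum of the
`q i / |x - a i| ^ (d - 2)` for `d ≥ 3`, and minus the sum of the `q i * log |x - a i|`
for `d = 2`. -/
noncomputable def potential {d N : ℕ} (a : Fin N → EuclideanSpace ℝ (Fin d)) (q : Fin N → ℝ)
    (x : EuclideanSpace ℝ (Fin d)) : ℝ :=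
  if d = 2 then -∑ i, q i * Real.log ‖x - a i‖ else ∑ i, q i / ‖x - a i‖ ^ (d - 2)

/-- The electric field, minus the gradient of the potential. -/
noncomputable def electricField {d N : ℕ} (a : Fin N → EuclideanSpace ℝ (Fin d)) (q : Fin N → ℝ)
    (x : EuclideanSpace ℝ (Fin d)) : EuclideanSpace ℝ (Fin d) :=
  -gradient (potential a q) x

/-- The points of equilibrium: the points distinct from all charges at which the field is zero. -/
def equilibria {d N : ℕ} (a : Fin N → EuclideanSpace ℝ (Fin d)) (q : Fin N → ℝ) :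
    Set (EuclideanSpace ℝ (Fin d)) :=
  {x | (∀ i, x ≠ a i) ∧ electricField a q x = 0}

/-- Functional lemma: a vector `Y` over a real vector space `K` which lies in the span of real
vectors `U i` modulo the real subspace `M`, and whose products with the `U i` lie in `M`,
lies in `M` coordinatewise. -/
theorem functional_lemma {K : Type*} [AddCommGroup K] [Module ℝ K] (M : Submodule ℝ K)
    {κ ι : Type*} [Fintype κ] (J : Finset ι) (Y : κ → K) (c : ι → K) (U : ι → κ → ℝ)
    (h1 : ∀ k, Y k - ∑ i ∈ J, U i k • c i ∈ M)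
    (h2 : ∀ i ∈ J, ∑ k, U i k • Y k ∈ M) : ∀ k, Y k ∈ M := by
  intro k₀
  by_contra hk
  obtain ⟨f, hf, hM⟩ := Submodule.exists_le_ker_of_notMem hk
  have hfM : ∀ z ∈ M, f z = 0 := fun z hz => LinearMap.mem_ker.mp (hM hz)
  have hz : ∀ k, f (Y k) = ∑ i ∈ J, U i k * f (c i) := by
    intro k
    have h := hfM _ (h1 k)
    rw [map_sub, map_sum, sub_eq_zero] at h
    rw [h]
    exact Finset.sum_congr rfl fun i _ => by rw [map_smul, smul_eq_mul]
  have hdot : ∀ i ∈ J, ∑ k, U i k * f (Y k) = 0 := by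
    intro i hi
    have h := hfM _ (h2 i hi)
    rw [map_sum] at h
    rw [← h]
    exact Finset.sum_congr rfl fun k _ => by rw [map_smul, smul_eq_mul]
  have hsq : ∑ k, f (Y k) * f (Y k) = 0 := by
    calc ∑ k, f (Y k) * f (Y k) = ∑ k, ∑ i ∈ J, f (c i) * (U i k * f (Y k)) := by
          refine Finset.sum_congr rfl fun k _ => ?_
          conv_lhs => rw [hz k, ← hz k]
          nth_rewrite 1 [hz k]
          rw [Finset.sum_mul]
          exact Finset.sum_congr rfl fun i _ => by ring
      _ = ∑ i ∈ J, f (c i) * ∑ k, U i k * f (Y k) := by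
          rw [Finset.sum_comm]
          exact Finset.sum_congr rfl fun i _ => by rw [Finset.mul_sum]
      _ = 0 := Finset.sum_eq_zero fun i hi => by rw [hdot i hi, mul_zero]
  have := (Finset.sum_eq_zero_iff_of_nonneg (fun k _ => mul_self_nonneg (f (Y k)))).mp hsq k₀
    (Finset.mem_univ _)
  exact hf (mul_self_eq_zero.mp this)

section Place

variable {K : Type*} [Field K] [Algebra ℝ K] {Γ : Type*} [LinearOrderedCommGroupWithZero Γ]
  (v : Valuation K Γ) (hv : ∀ r : ℝ, v (algebraMap ℝ K r) ≤ 1)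

include hv

theorem v_real {r : ℝ} (hr : r ≠ 0) : v (algebraMap ℝ K r) = 1 := by
  refine le_antisymm (hv r) ?_
  have h1 := hv r⁻¹
  rw [map_inv₀, map_inv₀] at h1
  have h0 : v (algebraMap ℝ K r) ≠ 0 := by
    rw [Valuation.ne_zero_iff]
    exact fun h => hr ((map_eq_zero _).mp h)
  exact (inv_le_one₀ (zero_lt_iff.mpr h0)).mp h1

theorem real_eq_zero {r : ℝ} (hr : v (algebraMap ℝ K r) < 1) : r = 0 := by
  by_contra h
  rw [v_real v hv h] at hr
  exact lt_irrefl _ hr

/-- elements of value at most one -/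
def ringM : Submodule ℝ K where
  carrier := {z | v z ≤ 1}
  add_mem' := fun {a b} ha hb => (Valuation.map_add v a b).trans (max_le ha hb)
  zero_mem' := by simp
  smul_mem' := by
    intro r z hz
    simp only [Set.mem_ofPred_eq] at hz ⊢
    rw [Algebra.smul_def, map_mul]
    exact mul_le_one' (hv r) hz

/-- elements which differ from a real number by an element of value less than one -/
def nearReal : Submodule ℝ K where
  carrier := {z | ∃ r : ℝ, v (z - algebraMap ℝ K r) < 1}
  add_mem' := by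
    rintro a b ⟨r, hr⟩ ⟨s, hs⟩
    refine ⟨r + s, ?_⟩
    have : a + b - algebraMap ℝ K (r + s) = (a - algebraMap ℝ K r) + (b - algebraMap ℝ K s) := by
      rw [map_add]; ring
    rw [this]
    exact (Valuation.map_add v _ _).trans_lt (max_lt hr hs)
  zero_mem' := ⟨0, by simp⟩
  smul_mem' := by
    rintro r z ⟨s, hs⟩
    refine ⟨r * s, ?_⟩
    have : r • z - algebraMap ℝ K (r * s) = algebraMap ℝ K r * (z - algebraMap ℝ K s) := by
      rw [Algebra.smul_def, map_mul]; ring
    rw [this, map_mul]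
    exact (mul_le_of_le_one_left' (hv r)).trans_lt hs

theorem mem_ringM (z : K) : z ∈ ringM v hv ↔ v z ≤ 1 := Iff.rfl

theorem mem_nearReal (z : K) : z ∈ nearReal v hv ↔ ∃ r : ℝ, v (z - algebraMap ℝ K r) < 1 := Iff.rfl

omit [Algebra ℝ K] hv in
theorem v_sum_le {ι : Type*} (J : Finset ι) (f : ι → K) (h : ∀ i ∈ J, v (f i) ≤ 1) :
    v (∑ i ∈ J, f i) ≤ 1 :=
  Valuation.map_sum_le v h

theorem v_smul_le (r : ℝ) {z : K} (h : v z ≤ 1) : v (r • z) ≤ 1 := by
  rw [Algebra.smul_def, map_mul]
  exact mul_le_one' (hv r) h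

theorem v_smul_lt (r : ℝ) {z : K} (h : v z < 1) : v (r • z) < 1 := by
  rw [Algebra.smul_def, map_mul]
  exact (mul_le_of_le_one_left' (hv r)).trans_lt h

end Place

section Core

variable {K : Type*} [Field K] [Algebra ℝ K]
  {ι : Type*} [Fintype ι] {κ : Type*} [Fintype κ]

theorem polar (a : ι → κ → ℝ) (X : κ → K) (R : ι → K)
    (hR : ∀ i, R i ^ 2 = ∑ k, (X k - algebraMap ℝ K (a i k)) ^ 2) (i j : ι) :
    ∑ k, (a i k - a j k) • (X k - algebraMap ℝ K (a j k)) =
      (1 / 2 : ℝ) • (R j ^ 2 - R i ^ 2) +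
        algebraMap ℝ K (1 / 2 * ∑ k, (a i k - a j k) ^ 2) := by
  rw [hR i, hR j, ← Finset.sum_sub_distrib, Finset.smul_sum, Finset.mul_sum, map_sum,
    ← Finset.sum_add_distrib]
  refine Finset.sum_congr rfl fun k _ => ?_
  have h2 : (2 : K) ≠ 0 := by
    have h := (map_ne_zero (algebraMap ℝ K)).mpr (two_ne_zero : (2 : ℝ) ≠ 0)
    rwa [map_ofNat] at h
  simp only [Algebra.smul_def, map_sub, map_mul, map_pow, map_div₀, map_one, map_ofNat]
  field_simp
  ring

/-- the weights -/
noncomputable def wt (n : ℕ) (q : ι → ℝ) (R : ι → K) (i : ι) : K :=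
  algebraMap ℝ K (q i) * ((R i)⁻¹) ^ n

variable {Γ : Type*} [LinearOrderedCommGroupWithZero Γ]
  (v : Valuation K Γ) (hv : ∀ r : ℝ, v (algebraMap ℝ K r) ≤ 1)

include hv in
theorem v_wt_le (n : ℕ) (q : ι → ℝ) (R : ι → K) (i : ι) (h : ¬ v (R i) < 1) :
    v (wt n q R i) ≤ 1 := by
  unfold wt
  rw [map_mul, map_pow, map_inv₀]
  refine mul_le_one' (hv _) (pow_le_one' ?_ _)
  exact inv_le_one_of_one_le₀ (not_lt.mp h)

theorem shift (a : ι → κ → ℝ) (X : κ → K) (s : ι → K)
    (heq : ∀ k, ∑ i, s i * (X k - algebraMap ℝ K (a i k)) = 0) (j : ι) (k : κ) :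
    (∑ i, s i) * (X k - algebraMap ℝ K (a j k)) = ∑ i, (a i k - a j k) • s i := by
  have h := heq k
  have h2 : ∑ i, (a i k - a j k) • s i =
      (∑ i, s i) * (X k - algebraMap ℝ K (a j k)) -
        ∑ i, s i * (X k - algebraMap ℝ K (a i k)) := by
    rw [Finset.sum_mul, ← Finset.sum_sub_distrib]
    refine Finset.sum_congr rfl fun i _ => ?_
    simp only [Algebra.smul_def, map_sub]
    ring
  rw [h2, h, sub_zero]

include hv in
/-- The sum of the weights has value at most one. -/
theorem S_le {n : ℕ} (hn : 2 ≤ n) (q : ι → ℝ) (hq : ∀ i, q i ≠ 0) (a : ι → κ → ℝ)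
    (ha : Function.Injective a) (X : κ → K) (R : ι → K) (hR0 : ∀ i, R i ≠ 0)
    (hR : ∀ i, R i ^ 2 = ∑ k, (X k - algebraMap ℝ K (a i k)) ^ 2)
    (heq : ∀ k, ∑ i, wt n q R i * (X k - algebraMap ℝ K (a i k)) = 0) :
    v (∑ i, wt n q R i) ≤ 1 := by
  classical
  by_contra hcon
  rw [not_le] at hcon
  set S : K := ∑ i, wt n q R i with hS
  have hS0 : S ≠ 0 := by
    rintro h
    rw [h, map_zero] at hcon
    exact not_lt_zero hcon
  set J : Finset ι := Finset.univ.filter (fun i => v (R i) < 1) with hJ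
  have hJmem : ∀ i, i ∈ J ↔ v (R i) < 1 := fun i => by simp [hJ]
  -- some `R` is small
  have hne : J.Nonempty := by
    by_contra hne
    rw [Finset.not_nonempty_iff_eq_empty] at hne
    refine absurd hcon (not_lt.mpr ?_)
    refine v_sum_le v _ _ fun i _ => v_wt_le v hv n q R i ?_
    rw [← hJmem, hne]
    exact Finset.notMem_empty i
  obtain ⟨j, hj⟩ := hne
  have hjlt := (hJmem j).mp hj
  have hvS : v S ≠ 0 := by rw [Valuation.ne_zero_iff]; exact hS0
  have hSinv : v S⁻¹ < 1 := by
    rw [map_inv₀]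
    exact inv_lt_one_of_one_lt₀ hcon
  -- the point is near-real
  have hnear : ∀ k, (X k - algebraMap ℝ K (a j k)) ∈ nearReal v hv := by
    refine functional_lemma (nearReal v hv) J (fun k => X k - algebraMap ℝ K (a j k))
      (fun i => wt n q R i / S) (fun i k => a i k - a j k) ?_ ?_
    · intro k
      have h1 : (X k - algebraMap ℝ K (a j k)) = ∑ i, (a i k - a j k) • (wt n q R i / S) := by
        have := shift a X (wt n q R) heq j k
        rw [← hS] at this
        rw [eq_comm, ← mul_right_inj' hS0, this, Finset.mul_sum]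
        refine Finset.sum_congr rfl fun i _ => ?_
        simp only [Algebra.smul_def]
        field_simp
      rw [h1, ← Finset.sum_compl_add_sum J, add_sub_cancel_right]
      refine Submodule.sum_mem _ fun i hi => ?_
      refine Submodule.smul_mem _ _ ?_
      rw [mem_nearReal]
      refine ⟨0, ?_⟩
      rw [map_zero, sub_zero, div_eq_mul_inv, map_mul]
      have hi' : ¬ v (R i) < 1 := by
        rw [← hJmem]
        exact Finset.mem_compl.mp hi
      exact (mul_le_of_le_one_left' (v_wt_le v hv n q R i hi')).trans_lt hSinv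
    · intro i hi
      rw [polar a X R hR i j, mem_nearReal]
      refine ⟨1 / 2 * ∑ k, (a i k - a j k) ^ 2, ?_⟩
      rw [add_sub_cancel_right]
      refine v_smul_lt v hv _ ?_
      refine (Valuation.map_sub v _ _).trans_lt (max_lt ?_ ?_)
      · rw [map_pow]
        exact pow_lt_one₀ zero_le hjlt two_ne_zero
      · rw [map_pow]
        exact pow_lt_one₀ zero_le ((hJmem i).mp hi) two_ne_zero
  choose p hp using hnear
  have hpeq : ∀ i ∈ J, ∀ k, p k = a i k - a j k := by
    intro i hi
    have hlt : v (algebraMap ℝ K (∑ k, (p k - (a i k - a j k)) ^ 2)) < 1 := by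
      have h1 : algebraMap ℝ K (∑ k, (p k - (a i k - a j k)) ^ 2) =
          R i ^ 2 - ∑ k, (X k - algebraMap ℝ K (a j k) - algebraMap ℝ K (p k)) *
            ((X k - algebraMap ℝ K (a j k) - algebraMap ℝ K (p k)) +
              algebraMap ℝ K (2 * (p k - (a i k - a j k)))) := by
        rw [hR i, ← Finset.sum_sub_distrib, map_sum]
        refine Finset.sum_congr rfl fun k _ => ?_
        simp only [map_sub, map_mul, map_pow, map_ofNat]
        ring
      rw [h1]
      refine (Valuation.map_sub v _ _).trans_lt (max_lt ?_ ?_)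
      · rw [map_pow]
        exact pow_lt_one₀ zero_le ((hJmem i).mp hi) two_ne_zero
      · refine Valuation.map_sum_lt v one_ne_zero fun k _ => ?_
        rw [map_mul]
        refine mul_lt_one_of_lt_of_le (hp k) ?_
        exact (Valuation.map_add v _ _).trans (max_le (hp k).le (hv _))
    have h0 := real_eq_zero v hv hlt
    intro k
    have := (Finset.sum_eq_zero_iff_of_nonneg
      (fun k _ => sq_nonneg (p k - (a i k - a j k)))).mp h0 k (Finset.mem_univ _)
    have := pow_eq_zero_iff two_ne_zero |>.mp this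
    linarith
  have hJj : ∀ i ∈ J, i = j := by
    intro i hi
    apply ha
    funext k
    have h1 := hpeq i hi k
    have h2 := hpeq j hj k
    linarith
  have hSR : v (S * R j) ≤ 1 := by
    have h1 : ∀ k, v (S * (X k - algebraMap ℝ K (a j k))) ≤ 1 := by
      intro k
      rw [hS, shift a X (wt n q R) heq j k]
      refine v_sum_le v _ _ fun i _ => ?_
      by_cases hij : i = j
      · subst hij
        simp
      · refine v_smul_le v hv _ (v_wt_le v hv n q R i ?_)
        rw [← hJmem]
        exact fun h => hij (hJj i h)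
    have h2 : v ((S * R j) ^ 2) ≤ 1 := by
      have : (S * R j) ^ 2 = ∑ k, (S * (X k - algebraMap ℝ K (a j k))) ^ 2 := by
        rw [mul_pow, hR j, Finset.mul_sum]
        exact Finset.sum_congr rfl fun k _ => by ring
      rw [this]
      refine v_sum_le v _ _ fun k _ => ?_
      rw [map_pow]
      exact pow_le_one' (h1 k) 2
    rw [map_pow] at h2
    by_contra h3
    rw [not_le] at h3
    exact absurd (one_lt_pow₀ h3 two_ne_zero) (not_lt.mpr h2)
  have hlast : v (wt n q R j * R j) ≤ 1 := by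
    have h1 : wt n q R j * R j = S * R j - ∑ i ∈ Finset.univ.erase j, wt n q R i * R j := by
      rw [hS, ← Finset.add_sum_erase _ _ (Finset.mem_univ j), add_mul, Finset.sum_mul,
        add_sub_cancel_right]
    rw [h1]
    refine (Valuation.map_sub v _ _).trans (max_le hSR ?_)
    refine v_sum_le v _ _ fun i hi => ?_
    rw [map_mul]
    refine mul_le_one' (v_wt_le v hv n q R i ?_) hjlt.le
    rw [← hJmem]
    exact fun h => (Finset.mem_erase.mp hi).1 (hJj i h)
  obtain ⟨m, rfl⟩ : ∃ m, n = m + 2 := ⟨n - 2, by omega⟩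
  have h1 : wt (m + 2) q R j * R j = algebraMap ℝ K (q j) * ((R j)⁻¹) ^ (m + 1) := by
    unfold wt
    rw [pow_succ _ (m + 1), mul_assoc, mul_assoc, inv_mul_cancel₀ (hR0 j), mul_one]
  rw [h1, map_mul, v_real v hv (hq j), one_mul, map_pow, map_inv₀] at hlast
  have hvR : v (R j) ≠ 0 := by rw [Valuation.ne_zero_iff]; exact hR0 j
  have h2 : 1 < (v (R j))⁻¹ := (one_lt_inv₀ (zero_lt_iff.mpr hvR)).mpr hjlt
  exact absurd (one_lt_pow₀ h2 (Nat.succ_ne_zero m)) (not_lt.mpr hlast)

include hv in
/-- If the sum of the weights is a nonzero real number, the point has coordinates of value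
at most one. -/
theorem X_le {n : ℕ} (q : ι → ℝ) (a : ι → κ → ℝ) (X : κ → K) (R : ι → K)
    (hR : ∀ i, R i ^ 2 = ∑ k, (X k - algebraMap ℝ K (a i k)) ^ 2)
    (heq : ∀ k, ∑ i, wt n q R i * (X k - algebraMap ℝ K (a i k)) = 0)
    {σ : ℝ} (hσ : σ ≠ 0) (hS : ∑ i, wt n q R i = algebraMap ℝ K σ) (k₀ : κ) :
    v (X k₀) ≤ 1 := by
  classical
  have hc0 : algebraMap ℝ K σ ≠ 0 := (map_ne_zero _).mpr hσ
  set J : Finset ι := Finset.univ.filter (fun i => v (R i) < 1) with hJ
  have hJmem : ∀ i, i ∈ J ↔ v (R i) < 1 := fun i => by simp [hJ]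
  rcases J.eq_empty_or_nonempty with hne | ⟨j, hj⟩
  · have h1 : X k₀ = σ⁻¹ • ∑ i, (a i k₀) • wt n q R i := by
      have h := heq k₀
      have h2 : algebraMap ℝ K σ * X k₀ = ∑ i, (a i k₀) • wt n q R i := by
        rw [← hS, Finset.sum_mul, ← sub_eq_zero, ← Finset.sum_sub_distrib, ← h]
        refine Finset.sum_congr rfl fun i _ => ?_
        simp only [Algebra.smul_def]
        ring
      rw [← h2, Algebra.smul_def, map_inv₀, ← mul_assoc, inv_mul_cancel₀ hc0, one_mul]
    rw [h1]
    refine v_smul_le v hv _ (v_sum_le v _ _ fun i _ => v_smul_le v hv _ ?_)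
    refine v_wt_le v hv n q R i ?_
    rw [← hJmem, hne]
    exact Finset.notMem_empty i
  · have hjlt := (hJmem j).mp hj
    have hnear : ∀ k, (X k - algebraMap ℝ K (a j k)) ∈ ringM v hv := by
      refine functional_lemma (ringM v hv) J (fun k => X k - algebraMap ℝ K (a j k))
        (fun i => σ⁻¹ • wt n q R i) (fun i k => a i k - a j k) ?_ ?_
      · intro k
        have h1 : (X k - algebraMap ℝ K (a j k)) =
            ∑ i, (a i k - a j k) • (σ⁻¹ • wt n q R i) := by
          have := shift a X (wt n q R) heq j k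
          rw [hS] at this
          rw [eq_comm, ← mul_right_inj' hc0, this, Finset.mul_sum]
          refine Finset.sum_congr rfl fun i _ => ?_
          simp only [Algebra.smul_def, map_inv₀]
          field_simp
        rw [h1, ← Finset.sum_compl_add_sum J, add_sub_cancel_right]
        refine Submodule.sum_mem _ fun i hi => ?_
        refine Submodule.smul_mem _ _ (Submodule.smul_mem _ _ ?_)
        rw [mem_ringM]
        have hi' : ¬ v (R i) < 1 := by
          rw [← hJmem]
          exact Finset.mem_compl.mp hi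
        exact v_wt_le v hv n q R i hi'
      · intro i hi
        rw [polar a X R hR i j, mem_ringM]
        refine (Valuation.map_add v _ _).trans (max_le (v_smul_le v hv _ ?_) (hv _))
        refine (Valuation.map_sub v _ _).trans (max_le ?_ ?_)
        · rw [map_pow]
          exact pow_le_one' hjlt.le 2
        · rw [map_pow]
          exact pow_le_one' ((hJmem i).mp hi).le 2
    have h := (mem_ringM v hv _).mp (hnear k₀)
    have h1 : X k₀ = (X k₀ - algebraMap ℝ K (a j k₀)) + algebraMap ℝ K (a j k₀) := by ring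
    rw [h1]
    exact (Valuation.map_add v _ _).trans (max_le h (hv _))

/-- The algebraic core: over an extension `K` of `ℝ` in which every integral element is real,
every solution of the equilibrium equations with nonzero total weight is real. -/
theorem core (hK : ∀ z : K, IsIntegral ℝ z → ∃ r : ℝ, algebraMap ℝ K r = z)
    {n : ℕ} (hn : 2 ≤ n) (q : ι → ℝ) (hq : ∀ i, q i ≠ 0) (a : ι → κ → ℝ)
    (ha : Function.Injective a) (X : κ → K) (R : ι → K) (hR0 : ∀ i, R i ≠ 0)
    (hR : ∀ i, R i ^ 2 = ∑ k, (X k - algebraMap ℝ K (a i k)) ^ 2)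
    (heq : ∀ k, ∑ i, wt n q R i * (X k - algebraMap ℝ K (a i k)) = 0)
    (hS : ∑ i, wt n q R i ≠ 0) (k : κ) : ∃ r : ℝ, algebraMap ℝ K r = X k := by
  have hinst : IsIntegrallyClosedIn (algebraMap ℝ K).range K := by
    rw [Subring.isIntegrallyClosedIn_iff]
    intro x hx
    have hx' : IsIntegral ℝ x := by
      obtain ⟨p, hp, hpx⟩ := hx
      have hsurj : Function.Surjective (algebraMap ℝ K).rangeRestrict :=
        (algebraMap ℝ K).rangeRestrict_surjective
      obtain ⟨p', hp', -, hmon⟩ := Polynomial.lifts_and_natDegree_eq_and_monic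
        (f := (algebraMap ℝ K).rangeRestrict) (p := p)
        ((Polynomial.lifts_iff_coeff_lifts p).mpr fun m => hsurj _) hp
      refine ⟨p', hmon, ?_⟩
      rw [← hp', Polynomial.eval₂_map] at hpx
      exact hpx
    obtain ⟨r, hr⟩ := hK x hx'
    exact ⟨r, hr⟩
  have key : ∀ z : K, (∀ V : ValuationSubring K, (∀ r : ℝ, V.valuation (algebraMap ℝ K r) ≤ 1) →
      V.valuation z ≤ 1) → ∃ r : ℝ, algebraMap ℝ K r = z := by
    intro z hz
    by_contra hcon
    have hz' : z ∉ (algebraMap ℝ K).range := fun h => hcon h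
    obtain ⟨V, hV, hzV⟩ := Subring.exists_le_valuationSubring_of_isIntegrallyClosedIn hz'
    refine hzV ((V.valuation_le_one_iff z).mp (hz V fun r => ?_))
    exact (V.valuation_le_one_iff _).mpr (hV ⟨r, rfl⟩)
  obtain ⟨σ, hσ⟩ := key (∑ i, wt n q R i) fun V hV =>
    S_le V.valuation hV hn q hq a ha X R hR0 hR heq
  have hσ0 : σ ≠ 0 := by
    rintro rfl
    rw [map_zero] at hσ
    exact hS hσ.symm
  exact key (X k) fun V hV => X_le V.valuation hV q a X R hR heq hσ0 hσ.symm k

end Core


section GermField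

/-- the nonstandard real field -/
abbrev KK : Type := Germ (hyperfilter ℕ : Filter ℕ) ℝ

/-- the class of a sequence -/
noncomputable def cls : (ℕ → ℝ) →+* KK := Germ.coeRingHom (hyperfilter ℕ : Filter ℕ)

theorem cls_surj (z : KK) : ∃ f, cls f = z := by
  induction z using Germ.inductionOn with
  | h f => exact ⟨f, rfl⟩

theorem cls_eq_iff (f g : ℕ → ℝ) : cls f = cls g ↔ ∀ᶠ m in (hyperfilter ℕ : Filter ℕ), f m = g m :=
  Germ.coe_eq

theorem cls_inv (f : ℕ → ℝ) : cls f⁻¹ = (cls f)⁻¹ := Germ.coe_inv f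

/-- the real numbers inside the nonstandard reals -/
noncomputable def stdHom : ℝ →+* KK := cls.comp (Pi.constRingHom ℕ ℝ)

theorem stdHom_apply (r : ℝ) : stdHom r = cls (fun _ => r) := rfl

theorem integral_std (z : KK) {p : Polynomial ℝ} (hp : p ≠ 0)
    (hz : p.eval₂ stdHom z = 0) : ∃ r : ℝ, stdHom r = z := by
  obtain ⟨f, rfl⟩ := cls_surj z
  unfold stdHom at hz
  rw [← Polynomial.hom_eval₂] at hz
  have h0 : cls (p.eval₂ (Pi.constRingHom ℕ ℝ) f) = cls 0 := by rw [hz, map_zero]
  rw [cls_eq_iff] at h0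
  have h1 : ∀ m, p.eval₂ (Pi.constRingHom ℕ ℝ) f m = p.eval (f m) := by
    intro m
    have h := Polynomial.hom_eval₂ p (Pi.constRingHom ℕ ℝ) (Pi.evalRingHom (fun _ : ℕ => ℝ) m) f
    have h2 : (Pi.evalRingHom (fun _ : ℕ => ℝ) m).comp (Pi.constRingHom ℕ ℝ) = RingHom.id ℝ := by
      ext r
      rfl
    rw [h2] at h
    exact h
  have h2 : ∀ᶠ m in (hyperfilter ℕ : Filter ℕ), ∃ r ∈ (↑p.roots.toFinset : Set ℝ), f m = r := by
    filter_upwards [h0] with m hm
    refine ⟨f m, ?_, rfl⟩
    rw [h1] at hm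
    simp [hp, hm]
  rw [Ultrafilter.eventually_exists_mem_iff (Finset.finite_toSet _)] at h2
  obtain ⟨r, -, hr⟩ := h2
  exact ⟨r, ((cls_eq_iff _ _).mpr (hr.mono fun m hm => hm.symm))⟩

end GermField


/-- Finiteness of the solution set of the equilibrium equations. -/
theorem finite_solutions {d N n : ℕ} (hN : 1 ≤ N) (hn : 2 ≤ n)
    (a : Fin N → EuclideanSpace ℝ (Fin d)) (q : Fin N → ℝ) (ha : Function.Injective a)
    (hq : ∀ i, 0 < q i) (E : Set (EuclideanSpace ℝ (Fin d)))
    (hE : ∀ x ∈ E, (∀ i, x ≠ a i) ∧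
      ∀ k, ∑ i, q i * (‖x - a i‖⁻¹) ^ n * (x k - a i k) = 0) : E.Finite := by
  by_contra hinf
  have hinf' : E.Infinite := hinf
  set x : ℕ → EuclideanSpace ℝ (Fin d) := fun m => (hinf'.natEmbedding E m : _) with hx
  have hxE : ∀ m, x m ∈ E := fun m => (hinf'.natEmbedding E m).2
  have hxinj : Function.Injective x := fun m m' h =>
    (hinf'.natEmbedding E).injective (Subtype.ext h)
  let _ : Algebra ℝ KK := stdHom.toAlgebra
  have halg : ∀ r : ℝ, algebraMap ℝ KK r = stdHom r := fun r => rfl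
  have hpos : ∀ m i, 0 < ‖x m - a i‖ := fun m i =>
    norm_pos_iff.mpr (sub_ne_zero.mpr ((hE (x m) (hxE m)).1 i))
  have hne : ∀ f : ℕ → ℝ, (∀ m, f m ≠ 0) → cls f ≠ 0 := by
    intro f hf h
    have h0 : cls f = cls 0 := by rw [h, map_zero]
    rw [cls_eq_iff] at h0
    obtain ⟨m, hm⟩ := h0.exists
    exact hf m hm
  have hwt : ∀ i, wt n q (fun i => cls (fun m => ‖x m - a i‖)) i =
      cls (fun m => q i * (‖x m - a i‖⁻¹) ^ n) := by
    intro i
    unfold wt
    rw [halg, stdHom_apply, ← cls_inv, ← map_pow, ← map_mul]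
    rfl
  have hcore := core (K := KK) (n := n) ?_ hn q (fun i => (hq i).ne') (fun i k => a i k) ?_
    (fun k => cls (fun m => x m k)) (fun i => cls (fun m => ‖x m - a i‖)) ?_ ?_ ?_ ?_
  · have h1 : ∀ k, ∃ r : ℝ, ∀ᶠ m in (hyperfilter ℕ : Filter ℕ), x m k = r := by
      intro k
      obtain ⟨r, hr⟩ := hcore k
      rw [halg, stdHom_apply, cls_eq_iff] at hr
      exact ⟨r, hr.mono fun m hm => hm.symm⟩
    choose r hr using h1
    have h2 : ∀ᶠ m in (hyperfilter ℕ : Filter ℕ), ∀ k, x m k = r k := eventually_all.mpr hr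
    have h3 : {m | ∀ k, x m k = r k}.Finite := by
      apply Set.Subsingleton.finite
      intro m hm m' hm'
      apply hxinj
      ext k
      exact (hm k).trans (hm' k).symm
    exact notMem_hyperfilter_of_finite h3 h2
  · intro z hz
    obtain ⟨p, hp, hpz⟩ := hz
    exact integral_std z hp.ne_zero hpz
  · intro i j hij
    apply ha
    ext k
    exact congrFun hij k
  · intro i
    exact hne _ fun m => (hpos m i).ne'
  · intro i
    have : ∀ k, (cls (fun m => x m k) - algebraMap ℝ KK (a i k)) ^ 2 =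
        cls (fun m => (x m k - a i k) ^ 2) := by
      intro k
      rw [halg, stdHom_apply, ← map_sub, ← map_pow]
      rfl
    simp only [this]
    rw [← map_pow, ← map_sum]
    congr 1
    funext m
    simp only [Pi.pow_apply, Finset.sum_apply]
    rw [EuclideanSpace.real_norm_sq_eq]
    simp
  · intro k
    have : ∀ i, wt n q (fun i => cls (fun m => ‖x m - a i‖)) i *
        (cls (fun m => x m k) - algebraMap ℝ KK (a i k)) =
        cls (fun m => q i * (‖x m - a i‖⁻¹) ^ n * (x m k - a i k)) := by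
      intro i
      rw [hwt, halg, stdHom_apply, ← map_sub, ← map_mul]
      rfl
    simp only [this]
    rw [← map_sum, ← map_zero cls]
    congr 1
    funext m
    simp only [Finset.sum_apply, Pi.zero_apply]
    exact (hE (x m) (hxE m)).2 k
  · simp only [hwt]
    rw [← map_sum]
    apply hne
    intro m
    simp only [Finset.sum_apply]
    have : Nonempty (Fin N) := ⟨⟨0, hN⟩⟩
    refine (Finset.sum_pos (fun i _ => ?_) Finset.univ_nonempty).ne'
    exact mul_pos (hq i) (pow_pos (inv_pos.mpr (hpos m i)) n)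

theorem hasFDerivAt_dist {d : ℕ} (a x : EuclideanSpace ℝ (Fin d)) (h : x ≠ a) :
    HasFDerivAt (fun y : EuclideanSpace ℝ (Fin d) => ‖y - a‖)
      (‖x - a‖⁻¹ • innerSL ℝ (x - a)) x := by
  have h0 : ‖x - a‖ ≠ 0 := norm_ne_zero_iff.mpr (sub_ne_zero.mpr h)
  have h1 : HasFDerivAt (fun y : EuclideanSpace ℝ (Fin d) => y - a)
      (ContinuousLinearMap.id ℝ _) x := (hasFDerivAt_id x).sub_const a
  have h2 := h1.norm_sq
  have h3 := h2.sqrt (pow_ne_zero 2 h0)
  have h4 : (fun y : EuclideanSpace ℝ (Fin d) => √(‖y - a‖ ^ 2)) = fun y => ‖y - a‖ := by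
    funext y
    exact Real.sqrt_sq (norm_nonneg _)
  rw [h4] at h3
  refine h3.congr_fderiv ?_
  ext y
  simp only [Real.sqrt_sq (norm_nonneg _)]
  simp
  field_simp

theorem hasFDerivAt_log {d : ℕ} (a x : EuclideanSpace ℝ (Fin d)) (h : x ≠ a) (q : ℝ) :
    HasFDerivAt (fun y : EuclideanSpace ℝ (Fin d) => q * Real.log ‖y - a‖)
      ((q * (‖x - a‖⁻¹) ^ 2) • innerSL ℝ (x - a)) x := by
  have h0 : ‖x - a‖ ≠ 0 := norm_ne_zero_iff.mpr (sub_ne_zero.mpr h)
  have h1 := ((hasFDerivAt_dist a x h).log h0).const_mul q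
  refine h1.congr_fderiv ?_
  ext y
  simp
  ring

theorem hasFDerivAt_pow {d : ℕ} (a x : EuclideanSpace ℝ (Fin d)) (h : x ≠ a) (q : ℝ) (m : ℕ) :
    HasFDerivAt (fun y : EuclideanSpace ℝ (Fin d) => q / ‖y - a‖ ^ (m + 1))
      ((-(m + 1 : ℝ) * (q * (‖x - a‖⁻¹) ^ (m + 3))) • innerSL ℝ (x - a)) x := by
  have h0 : ‖x - a‖ ≠ 0 := norm_ne_zero_iff.mpr (sub_ne_zero.mpr h)
  have h1 : HasDerivAt (fun r : ℝ => q / r ^ (m + 1))
      (-(m + 1 : ℝ) * (q * (‖x - a‖⁻¹) ^ (m + 2))) ‖x - a‖ := by
    have h2 := ((hasDerivAt_pow (m + 1) ‖x - a‖).fun_inv (pow_ne_zero _ h0)).const_mul q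
    have h3 : (fun r : ℝ => q / r ^ (m + 1)) = fun r => q * (r ^ (m + 1))⁻¹ := by
      funext r
      exact div_eq_mul_inv _ _
    rw [h3]
    have h4 : -(m + 1 : ℝ) * (q * (‖x - a‖⁻¹) ^ (m + 2)) =
        q * (-(((m + 1 : ℕ) : ℝ) * ‖x - a‖ ^ (m + 1 - 1)) / (‖x - a‖ ^ (m + 1)) ^ 2) := by
      rw [Nat.add_sub_cancel, inv_pow, eq_comm, mul_div_assoc', div_eq_iff (by positivity)]
      push_cast
      field_simp
      try ring
    rw [h4]
    exact h2
  have h2 := h1.comp_hasFDerivAt x (hasFDerivAt_dist a x h)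
  refine h2.congr_fderiv ?_
  ext y
  simp
  ring

theorem equation {d N : ℕ} (hd : 2 ≤ d) (a : Fin N → EuclideanSpace ℝ (Fin d)) (q : Fin N → ℝ)
    (x : EuclideanSpace ℝ (Fin d)) (hx : x ∈ equilibria a q) (k : Fin d) :
    ∑ i, q i * (‖x - a i‖⁻¹) ^ d * (x k - a i k) = 0 := by
  obtain ⟨hne, hE⟩ := hx
  have hg : gradient (potential a q) x = 0 := by
    unfold electricField at hE
    exact neg_eq_zero.mp hE
  have hf : fderiv ℝ (potential a q) x = 0 := by
    rw [← toDual_gradient, hg, map_zero]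
  obtain ⟨c, hc, hF⟩ : ∃ c : ℝ, c ≠ 0 ∧ HasFDerivAt (potential a q)
      (∑ i, (c * (q i * (‖x - a i‖⁻¹) ^ d)) • innerSL ℝ (x - a i)) x := by
    rcases Nat.lt_or_ge 2 d with h | h
    · obtain ⟨m, rfl⟩ : ∃ m, d = m + 3 := ⟨d - 3, by omega⟩
      refine ⟨-(m + 1 : ℝ), neg_ne_zero.mpr (by positivity), ?_⟩
      have hV : potential a q = fun y => ∑ i, q i / ‖y - a i‖ ^ (m + 1) := by
        funext y
        unfold potential
        rw [if_neg (by omega)]
        rfl
      rw [hV]
      exact HasFDerivAt.fun_sum fun i _ => hasFDerivAt_pow (a i) x (hne i) (q i) m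
    · obtain rfl : d = 2 := le_antisymm h hd
      refine ⟨-1, by norm_num, ?_⟩
      have hV : potential a q = fun y => -∑ i, q i * Real.log ‖y - a i‖ := by
        funext y
        unfold potential
        rw [if_pos rfl]
      rw [hV]
      have := (HasFDerivAt.fun_sum (u := Finset.univ)
        fun i _ => hasFDerivAt_log (a i) x (hne i) (q i)).fun_neg
      refine this.congr_fderiv ?_
      rw [← Finset.sum_neg_distrib]
      refine Finset.sum_congr rfl fun i _ => ?_
      rw [neg_one_mul, neg_smul]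
  have h1 := hF.fderiv
  rw [hf] at h1
  have h2 := congrArg (fun L => L (EuclideanSpace.single k (1 : ℝ))) h1
  simp [EuclideanSpace.inner_single_right] at h2
  have h3 : c * ∑ i, q i * (‖x - a i‖⁻¹) ^ d * (x k - a i k) = 0 := by
    rw [Finset.mul_sum, h2]
    refine Finset.sum_congr rfl fun i _ => ?_
    simp
    ring
  exact (mul_eq_zero.mp h3).resolve_left hc


theorem result : ∀ d N : ℕ, 2 ≤ d → 1 ≤ N →
    ∀ (a : Fin N → EuclideanSpace ℝ (Fin d)) (q : Fin N → ℝ),
      Function.Injective a → (∀ i, 0 < q i) → (equilibria a q).Finite :=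
  fun _ _ hd hN a q ha hq =>
    finite_solutions hN hd a q ha hq (equilibria a q) fun x hx =>
      ⟨hx.1, fun k => equation hd a q x hx k⟩

end Pool.Agent.Results.MP_765488_mp.FiniteEquilibria
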